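import Pool.Agent.Helper535.SG.Base
import Pool.Agent.Helper535.SG.P_g_sub
import Pool.Agent.Helper535.SG.P_g_conn
import Pool.Agent.Helper535.SG.P_g_cp
import Pool.Agent.Helper535.SG.P_g_scc
import Pool.Agent.Helper535.SG.P_cp_loc
import Pool.Agent.Helper535.SG.P_cp_reg
import Pool.Agent.Helper535.SG.P_cp_fam

set_option autoImplicit false

namespace Pool.Agent.Results.MP_32448b_gt.GasketExample

open Set Topology

/-- `IsDendriteImage k Y`: the space `Y` is the image of some dendrite under a continuous map all of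
whose fibres have exactly `k` points (the wording of the frozen statement). -/
def IsDendriteImage (k : ℕ) (Y : Type) [MetricSpace Y] : Prop :=
  ∃ (X : Type) (_ : MetricSpace X) (_ : CompactSpace X) (_ : ConnectedSpace X)
    (_ : LocallyConnectedSpace X),
    (∀ g : Circle → X, Continuous g → ¬ Function.Injective g) ∧
    ∃ f : X → Y, Continuous f ∧ ∀ y : Y, Set.ncard (f ⁻¹' {y}) = k

theorem result :
    -- the necessary condition
    (∀ (Y : Type) [MetricSpace Y] [CompactSpace Y] (k : ℕ), 1 ≤ k → IsDendriteImage k Y →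
      ∀ Z : Set Y, IsClosed Z → Z.Nonempty →
        ∃ U : Set Y, IsOpen U ∧ (U ∩ Z).Nonempty ∧
          ∀ g : Circle → Y, Continuous g → Function.Injective g → ¬ Set.range g ⊆ U ∩ Z) ∧
    -- the example: the classical necessary conditions do not suffice
    (∃ (Y : Type) (_ : MetricSpace Y) (_ : CompactSpace Y) (_ : ConnectedSpace Y)
        (_ : LocallyConnectedSpace Y),
      (∀ x : Y, ∀ V ∈ 𝓝 x, ∃ U : Set Y, IsOpen U ∧ x ∈ U ∧ U ⊆ V ∧ (frontier U).Finite) ∧
      (∀ V : Set Y, IsOpen V → V.Nonempty →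
        ∃ g : Circle → Y, Continuous g ∧ Function.Injective g ∧ Set.range g ⊆ V) ∧
      (∀ 𝒜 : Set (Set Y), (∀ A ∈ 𝒜, IsPreconnected A ∧ A.Nontrivial) →
        𝒜.PairwiseDisjoint id → 𝒜.Countable) ∧
      ∀ k : ℕ, 1 ≤ k → ¬ IsDendriteImage k Y) := by
  have hmain : ∀ (Y : Type) [MetricSpace Y] [CompactSpace Y] (k : ℕ), 1 ≤ k →
      IsDendriteImage k Y →
      ∀ Z : Set Y, IsClosed Z → Z.Nonempty →
        ∃ U : Set Y, IsOpen U ∧ (U ∩ Z).Nonempty ∧
          ∀ g : Circle → Y, Continuous g → Function.Injective g → ¬ Set.range g ⊆ U ∩ Z :=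
    fun Y _ _ k hk hY Z hZ hZn =>
      Pool.Agent.Helper535.SGBase.main_condition Y k hk hY Z hZ hZn
  refine ⟨hmain, ?_⟩
  have hcomp : CompactSpace Pool.Agent.Helper535.SG.G :=
    isCompact_iff_compactSpace.mp Pool.Agent.Helper535.SG.g_sub.2.1
  have hconn : ConnectedSpace Pool.Agent.Helper535.SG.G :=
    isConnected_iff_connectedSpace.mp Pool.Agent.Helper535.SG.g_conn
  have hcp := Pool.Agent.Helper535.SG.g_cp
  refine ⟨Pool.Agent.Helper535.SG.G, inferInstance, hcomp, hconn,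
    Pool.Agent.Helper535.SG.cp_loc _ hcp, ?_, ?_, ?_, ?_⟩
  · exact fun x V hV => Pool.Agent.Helper535.SG.cp_reg _ hcp x V hV
  · exact fun V hV hVn => Pool.Agent.Helper535.SG.g_scc V hV hVn
  · exact fun 𝒜 h𝒜 hd => Pool.Agent.Helper535.SG.cp_fam _ hcp 𝒜 h𝒜 hd
  · intro k hk hY
    obtain ⟨U, hU, hUn, hno⟩ := hmain _ k hk hY Set.univ isClosed_univ Set.univ_nonempty
    rw [Set.inter_univ] at hUn
    obtain ⟨g, hg, hgi, hgr⟩ := Pool.Agent.Helper535.SG.g_scc U hU hUn
    exact hno g hg hgi (by rw [Set.inter_univ]; exact hgr)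

end Pool.Agent.Results.MP_32448b_gt.GasketExample
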