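import Mathlib

set_option autoImplicit false

namespace Pool.Agent.Results.MP_32448b_gt.ScatteredCycles

open Set Topology

/-- `IsDendriteImage k Y`: the space `Y` is the image of some dendrite under a continuous map all of
whose fibres have exactly `k` points (the wording of the frozen statement). -/
def IsDendriteImage (k : ℕ) (Y : Type) [MetricSpace Y] : Prop :=
  ∃ (X : Type) (_ : MetricSpace X) (_ : CompactSpace X) (_ : ConnectedSpace X)
    (_ : LocallyConnectedSpace X),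
    (∀ g : Circle → X, Continuous g → ¬ Function.Injective g) ∧
    ∃ f : X → Y, Continuous f ∧ ∀ y : Y, Set.ncard (f ⁻¹' {y}) = k

/-- Points whose fibre contains `k` points that are pairwise at distance at least `ε`. -/
def Sep {X Y : Type} [MetricSpace X] (f : X → Y) (k : ℕ) (ε : ℝ) : Set Y :=
  {y | ∃ g : Fin k → X, (∀ i, f (g i) = y) ∧ ∀ i j, i ≠ j → ε ≤ dist (g i) (g j)}

lemma sep_closed {X Y : Type} [MetricSpace X] [CompactSpace X] [MetricSpace Y] (f : X → Y)
    (hf : Continuous f) (k : ℕ) (hk : 1 ≤ k) (ε : ℝ) : IsClosed (Sep f k ε) := by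
  let i0 : Fin k := ⟨0, hk⟩
  have h1 : IsClosed {g : Fin k → X | ∀ i, f (g i) = f (g i0)} := by
    rw [show {g : Fin k → X | ∀ i, f (g i) = f (g i0)} = ⋂ i, {g : Fin k → X | f (g i) = f (g i0)}
      from by ext g; simp]
    exact isClosed_iInter fun i =>
      isClosed_eq (hf.comp (continuous_apply i)) (hf.comp (continuous_apply i0))
  have h2 : IsClosed {g : Fin k → X | ∀ i j, i ≠ j → ε ≤ dist (g i) (g j)} := by
    rw [show {g : Fin k → X | ∀ i j, i ≠ j → ε ≤ dist (g i) (g j)} =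
      ⋂ i, ⋂ j, ⋂ (_ : i ≠ j), {g : Fin k → X | ε ≤ dist (g i) (g j)} from by ext g; simp]
    refine isClosed_iInter fun i => isClosed_iInter fun j => isClosed_iInter fun _ => ?_
    exact isClosed_le continuous_const ((continuous_apply i).dist (continuous_apply j))
  have h3 : Sep f k ε = (fun g : Fin k → X => f (g i0)) ''
      ({g : Fin k → X | ∀ i, f (g i) = f (g i0)} ∩
        {g : Fin k → X | ∀ i j, i ≠ j → ε ≤ dist (g i) (g j)}) := by
    ext y
    constructor
    · rintro ⟨g, hg, hs⟩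
      exact ⟨g, ⟨fun i => by rw [hg i, hg i0], hs⟩, hg i0⟩
    · rintro ⟨g, ⟨hg, hs⟩, rfl⟩
      exact ⟨g, fun i => hg i, hs⟩
  rw [h3]
  exact ((h1.inter h2).isCompact.image (hf.comp (continuous_apply i0))).isClosed

lemma sep_cover {X Y : Type} [MetricSpace X] (f : X → Y) (k : ℕ) (hk : 1 ≤ k) (y : Y)
    (hy : Set.ncard (f ⁻¹' {y}) = k) : ∃ n : ℕ, y ∈ Sep f k (1 / ((n : ℝ) + 1)) := by
  have hfin : (f ⁻¹' {y}).Finite := Set.finite_of_ncard_pos (by omega)
  have hcard : hfin.toFinset.card = k := by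
    rw [← hy, Set.ncard_eq_toFinset_card _ hfin]
  let e : Fin k ≃ hfin.toFinset := (hfin.toFinset.equivFinOfCardEq hcard).symm
  have hinj : ∀ i j, i ≠ j → (0 : ℝ) < dist ((e i : X)) ((e j : X)) := by
    intro i j hij
    refine dist_pos.mpr fun h => hij (e.injective (Subtype.ext h))
  have hN : ∀ p : Fin k × Fin k, ∃ n : ℕ, p.1 ≠ p.2 →
      1 / ((n : ℝ) + 1) ≤ dist ((e p.1 : X)) ((e p.2 : X)) := by
    intro p
    by_cases h : p.1 = p.2
    · exact ⟨0, fun h' => absurd h h'⟩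
    · obtain ⟨n, hn⟩ := exists_nat_one_div_lt (hinj p.1 p.2 h)
      exact ⟨n, fun _ => hn.le⟩
  choose N hN using hN
  refine ⟨Finset.univ.sup N, fun i => (e i : X), fun i => ?_, fun i j hij => ?_⟩
  · have := (e i).2
    rw [Set.Finite.mem_toFinset] at this
    exact this
  · refine le_trans ?_ (hN (i, j) hij)
    have h1 : N (i, j) ≤ Finset.univ.sup N := Finset.le_sup (Finset.mem_univ _)
    have h2 : (N (i, j) : ℝ) ≤ ((Finset.univ.sup N : ℕ) : ℝ) := by exact_mod_cast h1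
    exact one_div_le_one_div_of_le (by positivity) (by linarith)

lemma fibre_eq {X Y : Type} [MetricSpace X] (f : X → Y) (k : ℕ) (hk : 1 ≤ k) (y : Y)
    (hy : Set.ncard (f ⁻¹' {y}) = k) (ε : ℝ) (hε : 0 < ε) (g : Fin k → X)
    (hg : ∀ i, f (g i) = y) (hs : ∀ i j, i ≠ j → ε ≤ dist (g i) (g j)) :
    ∀ x, f x = y → ∃ i, g i = x := by
  have hfin : (f ⁻¹' {y}).Finite := Set.finite_of_ncard_pos (by omega)
  have hinj : Function.Injective g := by
    intro i j hij
    by_contra h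
    have := hs i j h
    rw [hij, dist_self] at this
    linarith
  have hsub : Set.range g ⊆ f ⁻¹' {y} := by
    rintro _ ⟨i, rfl⟩
    exact hg i
  have hle : (f ⁻¹' {y}).ncard ≤ (Set.range g).ncard := by
    rw [hy, ← Set.image_univ, Set.ncard_image_of_injective _ hinj, Set.ncard_univ, Nat.card_eq_fintype_card,
      Fintype.card_fin]
  have heq := Set.eq_of_subset_of_ncard_le hsub hle hfin
  intro x hx
  have : x ∈ Set.range g := by
    rw [heq]
    exact hx
  exact this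

lemma local_section {X Y : Type} [MetricSpace X] [CompactSpace X] [MetricSpace Y] (f : X → Y)
    (hf : Continuous f) (k : ℕ) (hk : 1 ≤ k) (hfib : ∀ y : Y, Set.ncard (f ⁻¹' {y}) = k)
    (ε : ℝ) (hε : 0 < ε) (y0 : Y) (hy0 : y0 ∈ Sep f k ε) :
    ∃ W : Set Y, IsOpen W ∧ y0 ∈ W ∧ ∃ x0 : X, ∀ y ∈ W ∩ Sep f k ε,
      ∃! x, f x = y ∧ dist x x0 ≤ ε / 3 := by
  obtain ⟨g0, hg0, hs0⟩ := hy0
  let i0 : Fin k := ⟨0, hk⟩
  have hE : IsClosed {x : X | ∀ i, ε / 3 ≤ dist x (g0 i)} := by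
    rw [show {x : X | ∀ i, ε / 3 ≤ dist x (g0 i)} = ⋂ i, {x : X | ε / 3 ≤ dist x (g0 i)}
      from by ext g; simp]
    exact isClosed_iInter fun i => isClosed_le continuous_const (continuous_id.dist continuous_const)
  have hfE : IsClosed (f '' {x : X | ∀ i, ε / 3 ≤ dist x (g0 i)}) :=
    (hE.isCompact.image hf).isClosed
  refine ⟨(f '' {x : X | ∀ i, ε / 3 ≤ dist x (g0 i)})ᶜ, hfE.isOpen_compl, ?_, g0 i0, ?_⟩
  · rintro ⟨x, hx, hxy⟩
    obtain ⟨i, rfl⟩ := fibre_eq f k hk y0 (hfib y0) ε hε g0 hg0 hs0 x hxy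
    have := hx i
    rw [dist_self] at this
    linarith
  · rintro y ⟨hyW, g, hg, hs⟩
    have hφ : ∀ j, ∃ i, dist (g j) (g0 i) < ε / 3 := by
      intro j
      by_contra h
      push Not at h
      exact hyW ⟨g j, h, hg j⟩
    choose φ hφ using hφ
    have hφinj : Function.Injective φ := by
      intro j j' hjj
      by_contra h
      have h1 := hs j j' h
      have h2 := hφ j
      have h3 := hφ j'
      rw [← hjj] at h3
      have h4 := dist_triangle_right (g j) (g j') (g0 (φ j))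
      linarith
    have hφsurj : Function.Surjective φ := Finite.surjective_of_injective hφinj
    obtain ⟨j, hj⟩ := hφsurj i0
    refine ⟨g j, ⟨hg j, ?_⟩, ?_⟩
    · have := hφ j
      rw [hj] at this
      exact this.le
    · rintro x ⟨hx, hxd⟩
      obtain ⟨j', rfl⟩ := fibre_eq f k hk y (hfib y) ε hε g hg hs x hx
      by_contra h
      have hne : j' ≠ j := fun h' => h (by rw [h'])
      have h1 := hs j' j hne
      have h2 := hφ j
      rw [hj] at h2
      have h4 := dist_triangle_right (g j') (g j) (g0 i0)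
      linarith

lemma section_continuous {X Y T : Type} [MetricSpace X] [CompactSpace X] [MetricSpace Y]
    [TopologicalSpace T] (f : X → Y) (hf : Continuous f) (γ : T → Y) (hγ : Continuous γ)
    (x0 : X) (r : ℝ) (h : T → X) (hh : ∀ t, f (h t) = γ t ∧ dist (h t) x0 ≤ r)
    (huniq : ∀ t x, f x = γ t ∧ dist x x0 ≤ r → x = h t) : Continuous h := by
  refine continuous_iff_isClosed.mpr fun E hE => ?_
  have hcl : IsClosed {p : T × X | (f p.2 = γ p.1 ∧ dist p.2 x0 ≤ r) ∧ p.2 ∈ E} := by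
    refine IsClosed.inter (IsClosed.inter ?_ ?_) ?_
    · exact isClosed_eq (hf.comp continuous_snd) (hγ.comp continuous_fst)
    · exact isClosed_le (continuous_snd.dist continuous_const) continuous_const
    · exact hE.preimage continuous_snd
  have himg : h ⁻¹' E = Prod.fst '' {p : T × X | (f p.2 = γ p.1 ∧ dist p.2 x0 ≤ r) ∧ p.2 ∈ E} := by
    ext t
    constructor
    · intro ht
      exact ⟨(t, h t), ⟨hh t, ht⟩, rfl⟩
    · rintro ⟨⟨t', x⟩, ⟨hx, hxE⟩, rfl⟩
      have := huniq t' x hx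
      show h t' ∈ E
      rw [← this]
      exact hxE
  rw [himg]
  exact isClosedMap_fst_of_compactSpace _ hcl

theorem main_condition (Y : Type) [MetricSpace Y] [CompactSpace Y] (k : ℕ) (hk : 1 ≤ k)
    (hY : IsDendriteImage k Y) (Z : Set Y) (hZ : IsClosed Z) (hZn : Z.Nonempty) :
    ∃ U : Set Y, IsOpen U ∧ (U ∩ Z).Nonempty ∧
      ∀ g : Circle → Y, Continuous g → Function.Injective g → ¬ Set.range g ⊆ U ∩ Z := by
  obtain ⟨X, _, _, _, _, hX, f, hf, hfib⟩ := hY
  have : CompactSpace Z := isCompact_iff_compactSpace.mp hZ.isCompact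
  have : Nonempty Z := hZn.to_subtype
  have hcl : ∀ n : ℕ, IsClosed ((Subtype.val : Z → Y) ⁻¹' (Sep f k (1 / ((n : ℝ) + 1)))) :=
    fun n => (sep_closed f hf k hk _).preimage continuous_subtype_val
  have hun : (⋃ n : ℕ, ((Subtype.val : Z → Y) ⁻¹' (Sep f k (1 / ((n : ℝ) + 1))))) = Set.univ := by
    refine Set.eq_univ_of_forall fun z => ?_
    obtain ⟨n, hn⟩ := sep_cover f k hk z.1 (hfib z.1)
    exact Set.mem_iUnion.mpr ⟨n, hn⟩
  obtain ⟨n, z, hz⟩ := nonempty_interior_of_iUnion_of_closed hcl hun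
  have hε : (0 : ℝ) < 1 / ((n : ℝ) + 1) := by positivity
  set ε : ℝ := 1 / ((n : ℝ) + 1) with hεdef
  obtain ⟨V, hV, hVU⟩ := isOpen_induced_iff.mp
    (isOpen_interior (s := ((Subtype.val : Z → Y) ⁻¹' (Sep f k ε))))
  have hzV : z.1 ∈ V := by
    have : z ∈ Subtype.val ⁻¹' V := by
      rw [hVU]
      exact hz
    exact this
  have hVsub : ∀ y ∈ V ∩ Z, y ∈ Sep f k ε := by
    rintro y ⟨hyV, hyZ⟩
    have h1 : (⟨y, hyZ⟩ : Z) ∈ Subtype.val ⁻¹' V := hyV
    rw [hVU] at h1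
    have h2 : (⟨y, hyZ⟩ : Z) ∈ Subtype.val ⁻¹' (Sep f k ε) := interior_subset h1
    exact h2
  obtain ⟨W, hW, hzW, x0, hsec⟩ := local_section f hf k hk hfib ε hε z.1 (hVsub z.1 ⟨hzV, z.2⟩)
  refine ⟨V ∩ W, hV.inter hW, ⟨z.1, ⟨hzV, hzW⟩, z.2⟩, ?_⟩
  intro γ hγ hγi hγr
  have hex : ∀ t : Circle, ∃! x, f x = γ t ∧ dist x x0 ≤ ε / 3 := by
    intro t
    have ht := hγr ⟨t, rfl⟩
    exact hsec (γ t) ⟨ht.1.2, hVsub _ ⟨ht.1.1, ht.2⟩⟩
  choose h hh huniq using hex
  have hcont : Continuous h :=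
    section_continuous f hf γ hγ x0 (ε / 3) h (fun t => hh t) (fun t x hx => huniq t x hx)
  refine hX h hcont fun t t' htt => hγi ?_
  rw [← (hh t).1, ← (hh t').1, htt]

theorem result :
    (∀ (Y : Type) [MetricSpace Y] [CompactSpace Y] (k : ℕ), 1 ≤ k → IsDendriteImage k Y →
      ∀ Z : Set Y, IsClosed Z → Z.Nonempty →
        ∃ U : Set Y, IsOpen U ∧ (U ∩ Z).Nonempty ∧
          ∀ g : Circle → Y, Continuous g → Function.Injective g → ¬ Set.range g ⊆ U ∩ Z) ∧
    (∀ (Y : Type) [MetricSpace Y] [CompactSpace Y] (Z : Set Y), IsClosed Z → Z.Nonempty →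
      (∀ U : Set Y, IsOpen U → (U ∩ Z).Nonempty →
        ∃ g : Circle → Y, Continuous g ∧ Function.Injective g ∧ Set.range g ⊆ U ∩ Z) →
      ∀ k : ℕ, 1 ≤ k → ¬ IsDendriteImage k Y) := by
  refine ⟨fun Y _ _ k hk hY Z hZ hZn => main_condition Y k hk hY Z hZ hZn, ?_⟩
  intro Y _ _ Z hZ hZn hdense k hk hY
  obtain ⟨U, hU, hUZ, hno⟩ := main_condition Y k hk hY Z hZ hZn
  obtain ⟨g, hg, hgi, hgr⟩ := hdense U hU hUZ
  exact hno g hg hgi hgr

end Pool.Agent.Results.MP_32448b_gt.ScatteredCycles
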